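import Mathlib

/-! Norm-one elements of `ℚ(√-m)` : zero-sum sets of distinct elements. -/

set_option autoImplicit false

open Complex

namespace Pool.Agent.Lib.MP_349919_co

/-- `√-m` -/
noncomputable def om (m : ℕ) : ℂ := (Real.sqrt m : ℂ) * I

theorem om_sq (m : ℕ) : om m * om m = -(m : ℂ) := by
  rw [om]
  have h : (Real.sqrt m : ℂ) * (Real.sqrt m : ℂ) = (m : ℂ) := by
    rw [← Complex.ofReal_mul, Real.mul_self_sqrt (Nat.cast_nonneg m)]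
    simp
  calc (Real.sqrt m : ℂ) * I * ((Real.sqrt m : ℂ) * I)
      = ((Real.sqrt m : ℂ) * (Real.sqrt m : ℂ)) * (I * I) := by ring
    _ = -(m : ℂ) := by rw [h, I_mul_I]; ring

theorem conj_om (m : ℕ) : (starRingEnd ℂ) (om m) = -om m := by
  simp [om]

/-- the field `ℚ(√-m)` as a subfield of `ℂ` -/
def F (m : ℕ) : Subfield ℂ where
  carrier := {z | ∃ a b : ℚ, z = a + b * om m}
  mul_mem' := by
    rintro _ _ ⟨a, b, rfl⟩ ⟨c, d, rfl⟩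
    refine ⟨a * c - b * d * m, a * d + b * c, ?_⟩
    push_cast
    linear_combination (b * d : ℂ) * om_sq m
  one_mem' := ⟨1, 0, by simp⟩
  add_mem' := by
    rintro _ _ ⟨a, b, rfl⟩ ⟨c, d, rfl⟩
    refine ⟨a + c, b + d, ?_⟩
    push_cast
    ring
  zero_mem' := ⟨0, 0, by simp⟩
  neg_mem' := by
    rintro _ ⟨a, b, rfl⟩
    refine ⟨-a, -b, ?_⟩
    push_cast
    ring
  inv_mem' := by
    rintro _ ⟨a, b, rfl⟩
    by_cases h : (a : ℂ) + b * om m = 0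
    · rw [h]
      exact ⟨0, 0, by simp⟩
    · have hq : ((a : ℂ) + b * om m) * (a - b * om m) = ((a ^ 2 + m * b ^ 2 : ℚ) : ℂ) := by
        push_cast
        linear_combination (-(b : ℂ) ^ 2) * om_sq m
      have hc : (a : ℂ) - b * om m ≠ 0 := by
        intro h0
        apply h
        have := congrArg (starRingEnd ℂ) h0
        simpa [conj_om] using this
      have hne : ((a ^ 2 + m * b ^ 2 : ℚ) : ℂ) ≠ 0 := by
        rw [← hq]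
        exact mul_ne_zero h hc
      refine ⟨a / (a ^ 2 + m * b ^ 2), -b / (a ^ 2 + m * b ^ 2), ?_⟩
      have h2 : ((a : ℂ) + b * om m)⁻¹ = (a - b * om m) / ((a ^ 2 + m * b ^ 2 : ℚ) : ℂ) := by
        rw [eq_div_iff hne, ← hq, ← mul_assoc, inv_mul_cancel₀ h, one_mul]
      rw [h2]
      push_cast
      push_cast at hne
      field_simp
      ring

theorem om_mem (m : ℕ) : om m ∈ F m := ⟨0, 1, by simp⟩

/-- norm-one elements of `ℚ(√-m)` -/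
def K1 (m : ℕ) : Set ℂ := {z | z ∈ F m ∧ ‖z‖ = 1}

theorem K1_ne_zero {m : ℕ} {z : ℂ} (hz : z ∈ K1 m) : z ≠ 0 := by
  rintro rfl
  have := hz.2
  simp at this

theorem K1_mul {m : ℕ} {z w : ℂ} (hz : z ∈ K1 m) (hw : w ∈ K1 m) : z * w ∈ K1 m :=
  ⟨(F m).mul_mem hz.1 hw.1, by rw [norm_mul, hz.2, hw.2, one_mul]⟩

theorem K1_neg {m : ℕ} {z : ℂ} (hz : z ∈ K1 m) : -z ∈ K1 m :=
  ⟨(F m).neg_mem hz.1, by rw [norm_neg, hz.2]⟩

theorem K1_one {m : ℕ} : (1 : ℂ) ∈ K1 m := ⟨(F m).one_mem, by simp⟩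

theorem K1_conj {m : ℕ} {z : ℂ} (hz : z ∈ K1 m) : (starRingEnd ℂ) z = z⁻¹ :=
  (Complex.inv_eq_conj hz.2).symm

theorem K1_inv {m : ℕ} {z : ℂ} (hz : z ∈ K1 m) : z⁻¹ ∈ K1 m :=
  ⟨(F m).inv_mem hz.1, by rw [norm_inv, hz.2, inv_one]⟩

/-- the element `(s + √-m) / (s - √-m)` -/
noncomputable def el (m : ℕ) (s : ℕ) : ℂ := (s + om m) / (s - om m)

theorem el_aux {m : ℕ} (hm : 0 < m) (s : ℕ) : (s : ℂ) - om m ≠ 0 := by
  intro h
  have h1 := congrArg Complex.im h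
  simp [om] at h1
  omega

theorem el_mem {m : ℕ} (hm : 0 < m) (s : ℕ) : el m s ∈ K1 m := by
  have hs : (s : ℂ) ∈ F m := natCast_mem (F m) s
  refine ⟨(F m).div_mem ((F m).add_mem hs (om_mem m)) ((F m).sub_mem hs (om_mem m)), ?_⟩
  rw [el, norm_div]
  have h : ‖(s : ℂ) + om m‖ = ‖(s : ℂ) - om m‖ := by
    have h1 : (starRingEnd ℂ) ((s : ℂ) - om m) = s + om m := by
      rw [map_sub, conj_om]
      simp
    rw [← h1, Complex.norm_conj]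
  rw [h, div_self]
  rw [norm_ne_zero_iff]
  exact el_aux hm s

theorem el_injective {m : ℕ} (hm : 0 < m) : Function.Injective (el m) := by
  intro s t h
  rw [el, el, div_eq_div_iff (el_aux hm s) (el_aux hm t)] at h
  have hom : om m ≠ 0 := by
    have := el_aux hm 0
    simpa using this
  have h2 : (2 * om m) * ((t : ℂ) - s) = 0 := by linear_combination h
  rcases mul_eq_zero.1 h2 with h3 | h3
  · exact absurd h3 (mul_ne_zero two_ne_zero hom)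
  · have := sub_eq_zero.1 h3
    exact_mod_cast this.symm

theorem K1_infinite {m : ℕ} (hm : 0 < m) : (K1 m).Infinite :=
  (Set.infinite_range_of_injective (el_injective hm)).mono (by
    rintro _ ⟨s, rfl⟩
    exact el_mem hm s)

/-! ### The one-parameter family -/

/-- auxiliary polynomial -/
def P (t : ℂ) : ℂ := t ^ 7 + t ^ 6 + 6 * t ^ 4 + 2 * t ^ 3 + 4 * t ^ 2 + t + 1
/-- auxiliary polynomial -/
def Ps (t : ℂ) : ℂ := t ^ 7 + t ^ 6 + 4 * t ^ 5 + 2 * t ^ 4 + 6 * t ^ 3 + t + 1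
/-- auxiliary polynomial -/
def A (t : ℂ) : ℂ := t ^ 6 - 2 * t ^ 5 + 2 * t ^ 4 - 4 * t ^ 3 - 2 * t ^ 2 - 2 * t - 1
/-- auxiliary polynomial -/
def As (t : ℂ) : ℂ := 1 - 2 * t + 2 * t ^ 2 - 4 * t ^ 3 - 2 * t ^ 4 - 2 * t ^ 5 - t ^ 6

/-- first element -/
noncomputable def fx (t : ℂ) : ℂ := P t / Ps t
/-- second element -/
noncomputable def fy (t : ℂ) : ℂ := -(t ^ 2 * Ps (-t)) / P (-t)
/-- third element -/
noncomputable def fz (t : ℂ) : ℂ := -(t * As t) / A t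

theorem sum_identity {t : ℂ} (h1 : Ps t ≠ 0) (h2 : P (-t) ≠ 0) (h3 : A t ≠ 0) :
    fx t + fy t + fz t + (-t) + t ^ 2 = 1 := by
  rw [fx, fy, fz]
  field_simp
  simp only [P, Ps, A, As]
  ring

theorem norm_P {m : ℕ} {t : ℂ} (ht : t ∈ K1 m) : ‖Ps t‖ = ‖P t‖ := by
  have h0 := K1_ne_zero ht
  have h : Ps t = t ^ 7 * (starRingEnd ℂ) (P t) := by
    simp only [P, Ps, map_add, map_mul, map_pow, K1_conj ht, map_ofNat, map_one]
    field_simp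
    ring
  rw [h, norm_mul, norm_pow, ht.2, one_pow, one_mul, Complex.norm_conj]

theorem norm_A {m : ℕ} {t : ℂ} (ht : t ∈ K1 m) : ‖As t‖ = ‖A t‖ := by
  have h0 := K1_ne_zero ht
  have h : As t = t ^ 6 * (starRingEnd ℂ) (A t) := by
    simp only [A, As, map_sub, map_add, map_mul, map_pow, K1_conj ht, map_ofNat, map_one]
    field_simp
  rw [h, norm_mul, norm_pow, ht.2, one_pow, one_mul, Complex.norm_conj]

theorem P_mem {m : ℕ} {t : ℂ} (ht : t ∈ F m) : P t ∈ F m := by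
  have h2 : ∀ k : ℕ, ((k : ℕ) : ℂ) ∈ F m := fun k => natCast_mem (F m) k
  have e : P t = t ^ 7 + t ^ 6 + ((6 : ℕ) : ℂ) * t ^ 4 + ((2 : ℕ) : ℂ) * t ^ 3 +
      ((4 : ℕ) : ℂ) * t ^ 2 + t + 1 := by simp [P]
  rw [e]
  have hp : ∀ k : ℕ, t ^ k ∈ F m := fun k => (F m).pow_mem ht k
  exact (F m).add_mem ((F m).add_mem ((F m).add_mem ((F m).add_mem ((F m).add_mem
    ((F m).add_mem (hp 7) (hp 6)) ((F m).mul_mem (h2 6) (hp 4))) ((F m).mul_mem (h2 2) (hp 3)))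
    ((F m).mul_mem (h2 4) (hp 2))) ht) (F m).one_mem

theorem Ps_mem {m : ℕ} {t : ℂ} (ht : t ∈ F m) : Ps t ∈ F m := by
  have h2 : ∀ k : ℕ, ((k : ℕ) : ℂ) ∈ F m := fun k => natCast_mem (F m) k
  have e : Ps t = t ^ 7 + t ^ 6 + ((4 : ℕ) : ℂ) * t ^ 5 + ((2 : ℕ) : ℂ) * t ^ 4 +
      ((6 : ℕ) : ℂ) * t ^ 3 + t + 1 := by simp [Ps]
  rw [e]
  have hp : ∀ k : ℕ, t ^ k ∈ F m := fun k => (F m).pow_mem ht k
  exact (F m).add_mem ((F m).add_mem ((F m).add_mem ((F m).add_mem ((F m).add_mem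
    ((F m).add_mem (hp 7) (hp 6)) ((F m).mul_mem (h2 4) (hp 5))) ((F m).mul_mem (h2 2) (hp 4)))
    ((F m).mul_mem (h2 6) (hp 3))) ht) (F m).one_mem

theorem A_mem {m : ℕ} {t : ℂ} (ht : t ∈ F m) : A t ∈ F m := by
  have h2 : ∀ k : ℕ, ((k : ℕ) : ℂ) ∈ F m := fun k => natCast_mem (F m) k
  have e : A t = t ^ 6 - ((2 : ℕ) : ℂ) * t ^ 5 + ((2 : ℕ) : ℂ) * t ^ 4 - ((4 : ℕ) : ℂ) * t ^ 3 -
      ((2 : ℕ) : ℂ) * t ^ 2 - ((2 : ℕ) : ℂ) * t - 1 := by simp [A]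
  rw [e]
  have hp : ∀ k : ℕ, t ^ k ∈ F m := fun k => (F m).pow_mem ht k
  exact (F m).sub_mem ((F m).sub_mem ((F m).sub_mem ((F m).sub_mem ((F m).add_mem
    ((F m).sub_mem (hp 6) ((F m).mul_mem (h2 2) (hp 5))) ((F m).mul_mem (h2 2) (hp 4)))
    ((F m).mul_mem (h2 4) (hp 3))) ((F m).mul_mem (h2 2) (hp 2))) ((F m).mul_mem (h2 2) ht))
    (F m).one_mem

theorem As_mem {m : ℕ} {t : ℂ} (ht : t ∈ F m) : As t ∈ F m := by
  have h2 : ∀ k : ℕ, ((k : ℕ) : ℂ) ∈ F m := fun k => natCast_mem (F m) k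
  have e : As t = 1 - ((2 : ℕ) : ℂ) * t + ((2 : ℕ) : ℂ) * t ^ 2 - ((4 : ℕ) : ℂ) * t ^ 3 -
      ((2 : ℕ) : ℂ) * t ^ 4 - ((2 : ℕ) : ℂ) * t ^ 5 - t ^ 6 := by simp [As]
  rw [e]
  have hp : ∀ k : ℕ, t ^ k ∈ F m := fun k => (F m).pow_mem ht k
  exact (F m).sub_mem ((F m).sub_mem ((F m).sub_mem ((F m).sub_mem ((F m).add_mem
    ((F m).sub_mem (F m).one_mem ((F m).mul_mem (h2 2) ht)) ((F m).mul_mem (h2 2) (hp 2)))
    ((F m).mul_mem (h2 4) (hp 3))) ((F m).mul_mem (h2 2) (hp 4))) ((F m).mul_mem (h2 2) (hp 5)))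
    (hp 6)

theorem fx_mem {m : ℕ} {t : ℂ} (ht : t ∈ K1 m) (h : Ps t ≠ 0) : fx t ∈ K1 m := by
  refine ⟨(F m).div_mem (P_mem ht.1) (Ps_mem ht.1), ?_⟩
  rw [fx, norm_div, ← norm_P ht, div_self (norm_ne_zero_iff.2 h)]

theorem fy_mem {m : ℕ} {t : ℂ} (ht : t ∈ K1 m) (h : P (-t) ≠ 0) : fy t ∈ K1 m := by
  have ht' := K1_neg ht
  refine ⟨(F m).div_mem ((F m).neg_mem ((F m).mul_mem ((F m).pow_mem ht.1 2) (Ps_mem ht'.1)))
    (P_mem ht'.1), ?_⟩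
  rw [fy, norm_div, norm_neg, norm_mul, norm_pow, ht.2, one_pow, one_mul, norm_P ht',
    div_self (norm_ne_zero_iff.2 h)]

theorem fz_mem {m : ℕ} {t : ℂ} (ht : t ∈ K1 m) (h : A t ≠ 0) : fz t ∈ K1 m := by
  refine ⟨(F m).div_mem ((F m).neg_mem ((F m).mul_mem ht.1 (As_mem ht.1)))
    (A_mem ht.1), ?_⟩
  rw [fz, norm_div, norm_neg, norm_mul, ht.2, one_mul, norm_A ht,
    div_self (norm_ne_zero_iff.2 h)]

end Pool.Agent.Lib.MP_349919_co
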