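import Mathlib

/-! Rectangular lattices and convex equilateral polygons in the plane. -/

set_option autoImplicit false

namespace Pool.Agent.Lib.MP_349919_co

/-- The rectangular lattice `Λ(m) = {(a, b √m) : a, b ∈ ℤ}`. -/
def Lam (m : ℕ) : Set (ℝ × ℝ) := {p | ∃ a b : ℤ, p = ((a : ℝ), (b : ℝ) * Real.sqrt m)}

/-- The cross product (determinant) of two plane vectors. -/
def cross (p q : ℝ × ℝ) : ℝ := p.1 * q.2 - p.2 * q.1

/-- `v : ZMod n → ℝ × ℝ` lists, in counterclockwise order, the vertices of a convex polygon with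
exactly `n` vertices (all interior angles strictly less than `π`): for every side
`v i, v (i + 1)`, all the other vertices lie strictly to the left of the directed line from `v i`
to `v (i + 1)`. -/
def IsConvexPolygon (n : ℕ) (v : ZMod n → ℝ × ℝ) : Prop :=
  3 ≤ n ∧ ∀ i j : ZMod n, j ≠ i → j ≠ i + 1 → 0 < cross (v (i + 1) - v i) (v j - v i)

/-- All sides of the closed polygon with vertices `v i` have the same Euclidean length `L`. -/
def IsEquilateral (n : ℕ) (v : ZMod n → ℝ × ℝ) : Prop :=
  ∃ L : ℝ, ∀ i : ZMod n,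
    Real.sqrt (((v (i + 1)).1 - (v i).1) ^ 2 + ((v (i + 1)).2 - (v i).2) ^ 2) = L

/-- The set `S` contains a convex equilateral `n`-gon. -/
def ContainsConvexEquilateral (S : Set (ℝ × ℝ)) (n : ℕ) : Prop :=
  ∃ v : ZMod n → ℝ × ℝ, (∀ i, v i ∈ S) ∧ IsConvexPolygon n v ∧ IsEquilateral n v

end Pool.Agent.Lib.MP_349919_co
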