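import Mathlib

/-! Partial sums of unit vectors sorted by angle form a strictly convex polygon. -/

set_option autoImplicit false

namespace Pool.Agent.Lib.MP_349919_co

open Finset

/-- Positivity of the partial sums of sines. -/
theorem partial_sum_pos {n : ℕ} (hn : 3 ≤ n) (φ : ℕ → ℝ) (hφ : StrictMono φ) (h0 : φ 0 = 0)
    (hn2 : φ n = 2 * Real.pi) (hsum : ∑ k ∈ range n, Real.sin (φ k) = 0) {l : ℕ} (hl : 2 ≤ l)
    (hl' : l < n) : 0 < ∑ k ∈ range l, Real.sin (φ k) := by
  have hpos : ∀ k, 0 < k → 0 < φ k := fun k hk => by rw [← h0]; exact hφ hk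
  have hlt : ∀ k, k < n → φ k < 2 * Real.pi := fun k hk => by rw [← hn2]; exact hφ hk
  have hneg : ∀ k, k < n → Real.pi < φ k → Real.sin (φ k) < 0 := by
    intro k hk h
    have h1 : Real.sin (φ k) = -Real.sin (φ k - Real.pi) := by
      rw [Real.sin_sub_pi, neg_neg]
    rw [h1, neg_lt_zero]
    exact Real.sin_pos_of_pos_of_lt_pi (by linarith) (by have := hlt k hk; linarith)
  rcases le_or_gt (φ (l - 1)) Real.pi with hle | hgt
  · have hnn : ∀ k ∈ range l, 0 ≤ Real.sin (φ k) := by
      intro k hk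
      have hk' : k ≤ l - 1 := by have := mem_range.1 hk; omega
      refine Real.sin_nonneg_of_nonneg_of_le_pi ?_ ((hφ.monotone hk').trans hle)
      rw [← h0]
      exact hφ.monotone (Nat.zero_le k)
    have h1 : φ 1 < Real.pi := by
      by_contra hcon
      push Not at hcon
      have hl2 : l = 2 := by
        by_contra hne
        have : 1 < l - 1 := by omega
        have := hφ this
        linarith
      subst hl2
      have e1 : φ 1 = Real.pi := le_antisymm hle hcon
      have h2 : ∑ k ∈ range n, Real.sin (φ k) < 0 := by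
        have hsplit : ∑ k ∈ range n, Real.sin (φ k) =
            ∑ k ∈ range 2, Real.sin (φ k) + ∑ k ∈ Ico 2 n, Real.sin (φ k) := by
          rw [range_eq_Ico, range_eq_Ico, sum_Ico_consecutive _ (by omega) (by omega)]
        rw [hsplit, sum_range_succ, sum_range_succ, sum_range_zero, h0, e1, Real.sin_zero,
          Real.sin_pi, zero_add, zero_add, zero_add]
        apply sum_neg
        · intro k hk
          rw [mem_Ico] at hk
          refine hneg k hk.2 ?_
          rw [← e1]
          exact hφ (by omega)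
        · exact ⟨2, by rw [mem_Ico]; omega⟩
      linarith
    refine sum_pos' hnn ⟨1, mem_range.2 (by omega), ?_⟩
    exact Real.sin_pos_of_pos_of_lt_pi (hpos 1 one_pos) h1
  · have hsplit : ∑ k ∈ range n, Real.sin (φ k) =
        ∑ k ∈ range l, Real.sin (φ k) + ∑ k ∈ Ico l n, Real.sin (φ k) := by
      rw [range_eq_Ico, range_eq_Ico, sum_Ico_consecutive _ (by omega) (by omega)]
    have h2 : ∑ k ∈ Ico l n, Real.sin (φ k) < 0 := by
      apply sum_neg
      · intro k hk
        rw [mem_Ico] at hk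
        refine hneg k hk.2 (hgt.trans_le (hφ.monotone (by omega)))
      · exact ⟨l, by rw [mem_Ico]; omega⟩
    linarith

/-- the unit vector of angle `θ` -/
noncomputable def uv (θ : ℝ) : ℝ × ℝ := (Real.cos θ, Real.sin θ)

/-- partial sums of unit vectors -/
noncomputable def V (θ : ℕ → ℝ) (j : ℕ) : ℝ × ℝ := ∑ k ∈ range j, uv (θ k)

theorem cos_sum {n : ℕ} (θ : ℕ → ℝ) (h : V θ n = 0) :
    ∑ k ∈ range n, Real.cos (θ k) = 0 ∧ ∑ k ∈ range n, Real.sin (θ k) = 0 := by
  have h1 := congrArg Prod.fst h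
  have h2 := congrArg Prod.snd h
  simp only [V, uv, Prod.fst_sum, Prod.snd_sum, Prod.fst_zero, Prod.snd_zero] at h1 h2
  exact ⟨h1, h2⟩

theorem uv_periodic {n : ℕ} {θ : ℕ → ℝ} (hper : ∀ k, θ (k + n) = θ k + 2 * Real.pi) (k : ℕ) :
    uv (θ (k + n)) = uv (θ k) := by
  rw [hper, uv, uv, Real.cos_add_two_pi, Real.sin_add_two_pi]

theorem V_periodic {n : ℕ} {θ : ℕ → ℝ} (hper : ∀ k, θ (k + n) = θ k + 2 * Real.pi)
    (h : V θ n = 0) (j : ℕ) : V θ (j + n) = V θ j := by
  rw [V, add_comm j n, sum_range_add]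
  have h1 : ∑ k ∈ range n, uv (θ k) = 0 := h
  rw [h1, zero_add, V]
  refine sum_congr rfl fun k _ => ?_
  rw [add_comm n k, uv_periodic hper]

theorem V_shift {n : ℕ} {θ : ℕ → ℝ} (hper : ∀ k, θ (k + n) = θ k + 2 * Real.pi)
    (h : V θ n = 0) (i : ℕ) : ∑ k ∈ range n, uv (θ (i + k)) = 0 := by
  have h1 : V θ (i + n) = V θ i := V_periodic hper h i
  rw [V, sum_range_add] at h1
  have h2 : V θ i = ∑ k ∈ range i, uv (θ k) := rfl
  rw [h2] at h1
  simpa using h1

/-- The key inequality. -/
theorem cross_pos {n : ℕ} (hn : 3 ≤ n) {θ : ℕ → ℝ} (hθ : StrictMono θ)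
    (hper : ∀ k, θ (k + n) = θ k + 2 * Real.pi) (h : V θ n = 0) (i : ℕ) {l : ℕ} (hl : 2 ≤ l)
    (hl' : l < n) :
    0 < (V θ (i + 1) - V θ i).1 * (V θ (i + l) - V θ i).2 -
      (V θ (i + 1) - V θ i).2 * (V θ (i + l) - V θ i).1 := by
  have e1 : V θ (i + 1) - V θ i = uv (θ i) := by
    rw [V, sum_range_succ, V]
    abel
  have e2 : V θ (i + l) - V θ i = ∑ k ∈ range l, uv (θ (i + k)) := by
    rw [V, sum_range_add, V]
    abel
  rw [e1, e2]
  have h3 := V_shift hper h i
  have h31 := congrArg Prod.fst h3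
  have h32 := congrArg Prod.snd h3
  simp only [uv, Prod.fst_sum, Prod.snd_sum, Prod.fst_zero, Prod.snd_zero] at h31 h32
  simp only [uv, Prod.fst_sum, Prod.snd_sum]
  have hsin : ∀ k, Real.sin (θ (i + k) - θ i) =
      Real.cos (θ i) * Real.sin (θ (i + k)) - Real.sin (θ i) * Real.cos (θ (i + k)) := by
    intro k
    rw [Real.sin_sub]
    ring
  have key := partial_sum_pos hn (fun k => θ (i + k) - θ i)
    (fun a b hab => by
      have : θ (i + a) < θ (i + b) := hθ (by omega)
      change θ (i + a) - θ i < θ (i + b) - θ i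
      linarith) (by simp)
    (by change θ (i + n) - θ i = 2 * Real.pi; rw [hper]; ring) (by
      simp only [hsin]
      rw [sum_sub_distrib, ← mul_sum, ← mul_sum, h31, h32]
      simp) hl hl'
  simp only [hsin] at key
  rw [sum_sub_distrib, ← mul_sum, ← mul_sum] at key
  exact key

end Pool.Agent.Lib.MP_349919_co
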