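import Pool.Agent.Lib.MP_349919_co.Fresh
import Pool.Agent.Lib.MP_349919_co.Polygon
import Pool.Agent.Lib.MP_349919_co.Defs

/-! From zero-sum sets of norm-one elements to convex equilateral polygons. -/

set_option autoImplicit false

open Finset

namespace Pool.Agent.Lib.MP_349919_co

/-- clearing denominators -/
theorem common_den {m : ℕ} (T : Finset ℂ) (hT : ∀ t ∈ T, t ∈ K1 m) :
    ∃ D : ℕ, 0 < D ∧ ∀ t ∈ T, ∃ a b : ℤ, (D : ℂ) * t = a + b * om m := by
  classical
  induction T using Finset.induction_on with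
  | empty => exact ⟨1, one_pos, by simp⟩
  | insert u T _ ih =>
    obtain ⟨D, hD, h⟩ := ih fun t ht => hT t (mem_insert_of_mem ht)
    obtain ⟨a, b, hab⟩ := (hT u (mem_insert_self u T)).1
    refine ⟨D * (a.den * b.den), Nat.mul_pos hD (Nat.mul_pos a.den_pos b.den_pos), ?_⟩
    intro t ht
    rcases mem_insert.1 ht with rfl | ht
    · refine ⟨D * (a.num * b.den), D * (b.num * a.den), ?_⟩
      have ha : (a : ℂ) * a.den = a.num := by exact_mod_cast Rat.mul_den_eq_num a
      have hb : (b : ℂ) * b.den = b.num := by exact_mod_cast Rat.mul_den_eq_num b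
      rw [hab]
      push_cast
      rw [← ha, ← hb]
      ring
    · obtain ⟨c, d, hcd⟩ := h t ht
      refine ⟨(a.den * b.den) * c, (a.den * b.den) * d, ?_⟩
      push_cast
      linear_combination ((a.den : ℂ) * b.den) * hcd

/-- the sorted angles, extended to all natural numbers -/
noncomputable def ang {n : ℕ} (θ : Fin n → ℝ) (hn : 0 < n) (k : ℕ) : ℝ :=
  θ ⟨k % n, Nat.mod_lt k hn⟩ + 2 * Real.pi * ((k / n : ℕ) : ℝ)

theorem ang_per {n : ℕ} (θ : Fin n → ℝ) (hn : 0 < n) (k : ℕ) :
    ang θ hn (k + n) = ang θ hn k + 2 * Real.pi := by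
  have h1 : (k + n) % n = k % n := Nat.add_mod_right k n
  have h2 : (k + n) / n = k / n + 1 := Nat.add_div_right k hn
  simp only [ang, h1, h2]
  push_cast
  ring

theorem ang_lt {n : ℕ} (θ : Fin n → ℝ) (hn : 0 < n) {k : ℕ} (hk : k < n) :
    ang θ hn k = θ ⟨k, hk⟩ := by
  have h1 : k % n = k := Nat.mod_eq_of_lt hk
  have h2 : k / n = 0 := Nat.div_eq_of_lt hk
  simp only [ang, h1, h2]
  simp

theorem ang_strictMono {n : ℕ} (θ : Fin n → ℝ) (hn : 0 < n) (hθ : StrictMono θ)
    (h1 : ∀ i, -Real.pi < θ i) (h2 : ∀ i, θ i ≤ Real.pi) : StrictMono (ang θ hn) := by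
  apply strictMono_nat_of_lt_succ
  intro k
  have hk : k % n < n := Nat.mod_lt k hn
  rcases Nat.lt_or_ge (k % n + 1) n with h | h
  · have e1 : (k + 1) % n = k % n + 1 := by
      rw [Nat.add_mod, Nat.mod_eq_of_lt (show 1 < n by omega), Nat.mod_eq_of_lt h]
    have e2 : (k + 1) / n = k / n := by
      have a1 := Nat.div_add_mod k n
      have a2 := Nat.div_add_mod (k + 1) n
      rw [e1] at a2
      have : n * ((k + 1) / n) = n * (k / n) := by omega
      exact Nat.eq_of_mul_eq_mul_left hn this
    simp only [ang, e1, e2]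
    have : θ ⟨k % n, hk⟩ < θ ⟨k % n + 1, h⟩ := hθ (by simp [Fin.lt_def])
    linarith
  · have e0 : k % n = n - 1 := by omega
    have a1 := Nat.div_add_mod k n
    have a2 : k + 1 = n * (k / n + 1) := by
      rw [mul_add, mul_one]
      omega
    have e1 : (k + 1) % n = 0 := by rw [a2]; exact Nat.mul_mod_right _ _
    have e2 : (k + 1) / n = k / n + 1 := by rw [a2]; exact Nat.mul_div_cancel_left _ hn
    simp only [ang, e1, e2]
    push_cast
    have b1 := h2 ⟨k % n, hk⟩
    have b2 := h1 ⟨0, hn⟩
    linarith [Real.pi_pos]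

/-- From `n` distinct norm-one elements of `ℚ(√-m)` with sum zero to a convex equilateral `n`-gon
in `Λ(m)`. -/
theorem polygon_of_set {m n : ℕ} (hn : 3 ≤ n) (T : Finset ℂ) (hcard : T.card = n)
    (hT : ∀ t ∈ T, t ∈ K1 m) (hsum : ∑ t ∈ T, t = 0) : ContainsConvexEquilateral (Lam m) n := by
  classical
  obtain ⟨D, hD, hden⟩ := common_den T hT
  have hD' : (0 : ℝ) < D := by exact_mod_cast hD
  have hn0 : 0 < n := by omega
  -- every element is determined by its argument
  have hexp : ∀ t ∈ T, t = Complex.exp (Complex.arg t * Complex.I) := by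
    intro t ht
    have h1 := Complex.norm_mul_exp_arg_mul_I t
    rw [(hT t ht).2] at h1
    simpa using h1.symm
  have hinj : Set.InjOn Complex.arg (T : Set ℂ) := by
    intro s hs t ht h
    rw [hexp s hs, hexp t ht, h]
  set A : Finset ℝ := T.image Complex.arg with hA
  have hAcard : A.card = n := by
    rw [hA, card_image_of_injOn hinj, hcard]
  let θ : Fin n → ℝ := A.orderEmbOfFin hAcard
  have hθ : StrictMono θ := (A.orderEmbOfFin hAcard).strictMono
  have hθmem : ∀ i, ∃ t ∈ T, Complex.arg t = θ i := by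
    intro i
    have : θ i ∈ A := A.orderEmbOfFin_mem hAcard i
    rw [hA, mem_image] at this
    exact this
  have hexpmem : ∀ i, Complex.exp (θ i * Complex.I) ∈ T := by
    intro i
    obtain ⟨t, ht, h⟩ := hθmem i
    rw [← h, ← hexp t ht]
    exact ht
  have hsumθ : ∑ i : Fin n, Complex.exp (θ i * Complex.I) = 0 := by
    rw [← hsum]
    refine sum_bij (fun i _ => Complex.exp (θ i * Complex.I)) (fun i _ => hexpmem i) ?_ ?_ ?_
    · intro i _ j _ h
      obtain ⟨s, hs, hs'⟩ := hθmem i
      obtain ⟨t, ht, ht'⟩ := hθmem j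
      rw [← hs', ← ht', ← hexp s hs, ← hexp t ht] at h
      apply hθ.injective
      rw [← hs', ← ht', h]
    · intro t ht
      have : Complex.arg t ∈ Set.range (A.orderEmbOfFin hAcard) := by
        rw [range_orderEmbOfFin]
        exact mem_image_of_mem _ ht
      obtain ⟨i, hi⟩ := this
      refine ⟨i, mem_univ _, ?_⟩
      change Complex.exp (((A.orderEmbOfFin hAcard i : ℝ) : ℂ) * Complex.I) = t
      rw [hi]
      exact (hexp t ht).symm
    · intro i _
      rfl
  have hb1 : ∀ i, -Real.pi < θ i := by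
    intro i
    obtain ⟨t, _, h⟩ := hθmem i
    rw [← h]
    exact Complex.neg_pi_lt_arg t
  have hb2 : ∀ i, θ i ≤ Real.pi := by
    intro i
    obtain ⟨t, _, h⟩ := hθmem i
    rw [← h]
    exact Complex.arg_le_pi t
  set α : ℕ → ℝ := ang θ hn0 with hα
  have hαmono : StrictMono α := ang_strictMono θ hn0 hθ hb1 hb2
  have hαper : ∀ k, α (k + n) = α k + 2 * Real.pi := ang_per θ hn0
  have hcos : ∀ k, uv (α k) = ((Complex.exp (θ ⟨k % n, Nat.mod_lt k hn0⟩ * Complex.I)).re,
      (Complex.exp (θ ⟨k % n, Nat.mod_lt k hn0⟩ * Complex.I)).im) := by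
    intro k
    have e1 : α k = θ ⟨k % n, Nat.mod_lt k hn0⟩ + ((k / n : ℕ) : ℝ) * (2 * Real.pi) := by
      rw [hα, ang]
      ring
    rw [e1, uv, Real.cos_add_nat_mul_two_pi, Real.sin_add_nat_mul_two_pi,
      Complex.exp_ofReal_mul_I_re, Complex.exp_ofReal_mul_I_im]
  have hV : V α n = 0 := by
    rw [V, ← Fin.sum_univ_eq_sum_range (fun k => uv (α k)) n]
    have e : ∀ i : Fin n, uv (α i) = ((Complex.exp (θ i * Complex.I)).re,
        (Complex.exp (θ i * Complex.I)).im) := by
      intro i
      rw [hcos]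
      have : (⟨(i : ℕ) % n, Nat.mod_lt i hn0⟩ : Fin n) = i := Fin.ext (Nat.mod_eq_of_lt i.2)
      rw [this]
    simp only [e]
    have h1 := congrArg Complex.re hsumθ
    have h2 := congrArg Complex.im hsumθ
    rw [Complex.re_sum] at h1
    rw [Complex.im_sum] at h2
    ext
    · rw [Prod.fst_sum]
      simpa using h1
    · rw [Prod.snd_sum]
      simpa using h2
  -- the vertices
  have : NeZero n := ⟨by omega⟩
  let v : ZMod n → ℝ × ℝ := fun i => (D : ℝ) • V α i.val
  have hval : ∀ i : ZMod n, i.val < n := fun i => ZMod.val_lt i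
  have hone : (1 : ZMod n).val = 1 := by
    rw [ZMod.val_one_eq_one_mod]
    exact Nat.mod_eq_of_lt (by omega)
  have hsucc : ∀ i : ZMod n, V α (i + 1).val = V α (i.val + 1) := by
    intro i
    rw [ZMod.val_add, hone]
    rcases Nat.lt_or_ge (i.val + 1) n with h | h
    · rw [Nat.mod_eq_of_lt h]
    · have h1 : i.val + 1 = 0 + n := by have := hval i; omega
      rw [h1, V_periodic hαper hV, Nat.zero_add, Nat.mod_self]
  refine ⟨v, ?_, ⟨hn, ?_⟩, ?_⟩
  · -- the vertices lie in the lattice
    have hstep : ∀ j : ℕ, ∃ a b : ℤ, (D : ℝ) • V α j = ((a : ℝ), (b : ℝ) * Real.sqrt m) := by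
      intro j
      induction j with
      | zero => exact ⟨0, 0, by simp [V, Prod.zero_eq_mk]⟩
      | succ j ih =>
        obtain ⟨a, b, hab⟩ := ih
        obtain ⟨c, d, hcd⟩ := hden _ (hexpmem ⟨j % n, Nat.mod_lt j hn0⟩)
        refine ⟨a + c, b + d, ?_⟩
        have e : V α (j + 1) = V α j + uv (α j) := by
          rw [V, sum_range_succ]
          rfl
        have hre := congrArg Complex.re hcd
        have him := congrArg Complex.im hcd
        simp only [om, Complex.mul_re, Complex.natCast_re, Complex.natCast_im, zero_mul, sub_zero,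
          Complex.add_re, Complex.intCast_re, Complex.intCast_im, Complex.mul_im,
          Complex.ofReal_re, Complex.ofReal_im, Complex.I_re, Complex.I_im, mul_zero, mul_one,
          add_zero, zero_add, Complex.add_im, sub_self] at hre him
        rw [e, smul_add, hab, hcos]
        ext
        · simp only [Prod.fst_add, Prod.smul_fst, smul_eq_mul]
          push_cast
          linarith
        · simp only [Prod.snd_add, Prod.smul_snd, smul_eq_mul]
          push_cast
          linarith
    intro i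
    exact hstep i.val
  · -- convexity
    intro i j hij hij1
    have key : ∀ a b : ℕ, ∀ l : ℕ, V α b = V α (a + l) → 2 ≤ l → l < n →
        0 < cross ((D : ℝ) • V α (a + 1) - (D : ℝ) • V α a) ((D : ℝ) • V α b - (D : ℝ) • V α a) := by
      intro a b l hb hl hl'
      have h := cross_pos hn hαmono hαper hV a hl hl'
      rw [← hb] at h
      rw [← smul_sub, ← smul_sub, cross]
      simp only [Prod.smul_fst, Prod.smul_snd, smul_eq_mul]
      have : 0 < (D : ℝ) * D := mul_pos hD' hD'
      calc (0 : ℝ) < ((D : ℝ) * D) * ((V α (a + 1) - V α a).1 * (V α b - V α a).2 -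
            (V α (a + 1) - V α a).2 * (V α b - V α a).1) := mul_pos this h
        _ = _ := by ring
    change 0 < cross ((D : ℝ) • V α (i + 1).val - (D : ℝ) • V α i.val)
      ((D : ℝ) • V α j.val - (D : ℝ) • V α i.val)
    rw [hsucc]
    have hvi := hval i
    have hvj := hval j
    have hne : j.val ≠ i.val := fun h => hij (ZMod.val_injective n h)
    have hne1 : j.val ≠ (i + 1).val := fun h => hij1 (ZMod.val_injective n h)
    rw [ZMod.val_add, hone] at hne1
    rcases Nat.lt_or_gt_of_ne hne with h | h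
    · -- j < i
      refine key i.val j.val (j.val + n - i.val) ?_ ?_ ?_
      · have : i.val + (j.val + n - i.val) = j.val + n := by omega
        rw [this, V_periodic hαper hV]
      · by_contra hcon
        have h1 : j.val = 0 ∧ i.val + 1 = n := by omega
        rw [h1.2, Nat.mod_self] at hne1
        exact hne1 h1.1
      · omega
    · refine key i.val j.val (j.val - i.val) ?_ ?_ ?_
      · have : i.val + (j.val - i.val) = j.val := by omega
        rw [this]
      · by_contra hcon
        have h1 : j.val = i.val + 1 := by omega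
        rw [← h1, Nat.mod_eq_of_lt hvj] at hne1
        exact hne1 rfl
      · omega
  · refine ⟨D, fun i => ?_⟩
    change Real.sqrt ((((D : ℝ) • V α (i + 1).val).1 - ((D : ℝ) • V α i.val).1) ^ 2 +
      (((D : ℝ) • V α (i + 1).val).2 - ((D : ℝ) • V α i.val).2) ^ 2) = D
    rw [hsucc]
    have e : V α (i.val + 1) = V α i.val + uv (α i.val) := by
      rw [V, sum_range_succ]
      rfl
    rw [e]
    have h1 : (((D : ℝ) • (V α i.val + uv (α i.val))).1 - ((D : ℝ) • V α i.val).1) ^ 2 +
      (((D : ℝ) • (V α i.val + uv (α i.val))).2 - ((D : ℝ) • V α i.val).2) ^ 2 = (D : ℝ) ^ 2 := by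
      simp only [Prod.smul_fst, Prod.smul_snd, Prod.fst_add, Prod.snd_add, smul_eq_mul, uv]
      have := Real.sin_sq_add_cos_sq (α i.val)
      linear_combination (D : ℝ) ^ 2 * this
    rw [h1, Real.sqrt_sq hD'.le]

end Pool.Agent.Lib.MP_349919_co
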