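import Pool.Agent.Lib.MP_349919_co.Algebra

/-! Replacing a norm-one element by five fresh ones; zero-sum sets of distinct elements. -/

set_option autoImplicit false

open Polynomial

namespace Pool.Agent.Lib.MP_349919_co

theorem finite_zeros (q : ℂ[X]) (f : ℂ → ℂ) (h : ∀ t, q.eval t = f t) (t0 : ℂ) (h0 : f t0 ≠ 0) :
    {t | f t = 0}.Finite := by
  have hq : q ≠ 0 := by
    rintro rfl
    apply h0
    rw [← h]
    simp
  refine (q.roots.toFinset.finite_toSet).subset ?_
  intro t ht
  simp only [Finset.mem_coe, Multiset.mem_toFinset]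
  rw [mem_roots hq, IsRoot.def, h]
  exact ht

/-- polynomial form of `P` -/
noncomputable def qP : ℂ[X] := X ^ 7 + X ^ 6 + C 6 * X ^ 4 + C 2 * X ^ 3 + C 4 * X ^ 2 + X + 1
/-- polynomial form of `Ps` -/
noncomputable def qPs : ℂ[X] := X ^ 7 + X ^ 6 + C 4 * X ^ 5 + C 2 * X ^ 4 + C 6 * X ^ 3 + X + 1
/-- polynomial form of `A` -/
noncomputable def qA : ℂ[X] :=
  X ^ 6 - C 2 * X ^ 5 + C 2 * X ^ 4 - C 4 * X ^ 3 - C 2 * X ^ 2 - C 2 * X - 1
/-- polynomial form of `As` -/
noncomputable def qAs : ℂ[X] :=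
  1 - C 2 * X + C 2 * X ^ 2 - C 4 * X ^ 3 - C 2 * X ^ 4 - C 2 * X ^ 5 - X ^ 6

theorem eval_qP (t : ℂ) : qP.eval t = P t := by
  simp only [qP, P, eval_add, eval_mul, eval_pow, eval_X, eval_C, eval_one]
theorem eval_qPs (t : ℂ) : qPs.eval t = Ps t := by
  simp only [qPs, Ps, eval_add, eval_mul, eval_pow, eval_X, eval_C, eval_one]
theorem eval_qA (t : ℂ) : qA.eval t = A t := by
  simp only [qA, A, eval_add, eval_sub, eval_mul, eval_pow, eval_X, eval_C, eval_one]
theorem eval_qAs (t : ℂ) : qAs.eval t = As t := by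
  simp only [qAs, As, eval_add, eval_sub, eval_mul, eval_pow, eval_X, eval_C, eval_one]
theorem eval_qPn (t : ℂ) : (qP.comp (-X)).eval t = P (-t) := by
  rw [eval_comp, eval_neg, eval_X, eval_qP]
theorem eval_qPsn (t : ℂ) : (qPs.comp (-X)).eval t = Ps (-t) := by
  rw [eval_comp, eval_neg, eval_X, eval_qPs]

theorem P_two : P 2 = 323 := by norm_num [P]
theorem Ps_two : Ps 2 = 403 := by norm_num [Ps]
theorem P_neg_two : P (-2) = 31 := by norm_num [P]
theorem Ps_neg_two : Ps (-2) = -209 := by norm_num [Ps]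
theorem A_two : A 2 = -13 := by norm_num [A]
theorem As_two : As 2 = -187 := by norm_num [As]
theorem P_zero : P 0 = 1 := by norm_num [P]
theorem Ps_zero : Ps 0 = 1 := by norm_num [Ps]
theorem A_zero : A 0 = -1 := by norm_num [A]
theorem P_neg_one : P (-1) = 8 := by norm_num [P]
theorem Ps_neg_one : Ps (-1) = -8 := by norm_num [Ps]
theorem A_one : A 1 = -8 := by norm_num [A]
theorem As_one : As 1 = -8 := by norm_num [As]

/-- the finite exceptional set of parameters -/
def Exc (Bad : Finset ℂ) : Set ℂ :=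
  {t | Ps t = 0} ∪ {t | P (-t) = 0} ∪ {t | A t = 0} ∪
  {t | P t * P (-t) + t ^ 2 * Ps (-t) * Ps t = 0} ∪
  {t | P t * A t + t * As t * Ps t = 0} ∪
  {t | t ^ 2 * Ps (-t) * A t - t * As t * P (-t) = 0} ∪
  {t | P t + t * Ps t = 0} ∪ {t | P t - t ^ 2 * Ps t = 0} ∪
  {t | t * P (-t) - t ^ 2 * Ps (-t) = 0} ∪ {t | t ^ 2 * Ps (-t) + t ^ 2 * P (-t) = 0} ∪
  {t | t * A t - t * As t = 0} ∪ {t | t * As t + t ^ 2 * A t = 0} ∪ {t | t ^ 2 + t = 0} ∪
  (⋃ β ∈ Bad, ({t | P t - β * Ps t = 0} ∪ {t | t ^ 2 * Ps (-t) + β * P (-t) = 0} ∪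
    {t | t * As t + β * A t = 0} ∪ {t | t + β = 0} ∪ {t | t ^ 2 - β = 0}))

theorem Exc_finite (Bad : Finset ℂ) : (Exc Bad).Finite := by
  unfold Exc
  refine Set.Finite.union ?_ ?_
  · refine (((((((((((?_ : Set.Finite _).union ?_).union ?_).union ?_).union ?_).union ?_).union
      ?_).union ?_).union ?_).union ?_).union ?_).union ?_ |>.union ?_
    · exact finite_zeros qPs _ eval_qPs 2 (by rw [Ps_two]; norm_num)
    · exact finite_zeros (qP.comp (-X)) _ eval_qPn 2 (by rw [P_neg_two]; norm_num)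
    · exact finite_zeros qA _ eval_qA 2 (by rw [A_two]; norm_num)
    · refine finite_zeros (qP * qP.comp (-X) + X ^ 2 * qPs.comp (-X) * qPs) _ (fun t => ?_) 2 ?_
      · simp only [eval_add, eval_mul, eval_pow, eval_X, eval_qP, eval_qPn, eval_qPsn, eval_qPs]
      · rw [P_two, P_neg_two, Ps_neg_two, Ps_two]; norm_num
    · refine finite_zeros (qP * qA + X * qAs * qPs) _ (fun t => ?_) 2 ?_
      · simp only [eval_add, eval_mul, eval_X, eval_qP, eval_qA, eval_qAs, eval_qPs]
      · rw [P_two, A_two, As_two, Ps_two]; norm_num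
    · refine finite_zeros (X ^ 2 * qPs.comp (-X) * qA - X * qAs * qP.comp (-X)) _
        (fun t => ?_) 2 ?_
      · simp only [eval_sub, eval_mul, eval_pow, eval_X, eval_qPn, eval_qPsn, eval_qA, eval_qAs]
      · rw [P_neg_two, A_two, As_two, Ps_neg_two]; norm_num
    · refine finite_zeros (qP + X * qPs) _ (fun t => ?_) 2 ?_
      · simp only [eval_add, eval_mul, eval_X, eval_qP, eval_qPs]
      · rw [P_two, Ps_two]; norm_num
    · refine finite_zeros (qP - X ^ 2 * qPs) _ (fun t => ?_) 2 ?_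
      · simp only [eval_sub, eval_mul, eval_pow, eval_X, eval_qP, eval_qPs]
      · rw [P_two, Ps_two]; norm_num
    · refine finite_zeros (X * qP.comp (-X) - X ^ 2 * qPs.comp (-X)) _ (fun t => ?_) 2 ?_
      · simp only [eval_sub, eval_mul, eval_pow, eval_X, eval_qPn, eval_qPsn]
      · rw [P_neg_two, Ps_neg_two]; norm_num
    · refine finite_zeros (X ^ 2 * qPs.comp (-X) + X ^ 2 * qP.comp (-X)) _ (fun t => ?_) 2 ?_
      · simp only [eval_add, eval_mul, eval_pow, eval_X, eval_qPn, eval_qPsn]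
      · rw [P_neg_two, Ps_neg_two]; norm_num
    · refine finite_zeros (X * qA - X * qAs) _ (fun t => ?_) 2 ?_
      · simp only [eval_sub, eval_mul, eval_X, eval_qA, eval_qAs]
      · rw [A_two, As_two]; norm_num
    · refine finite_zeros (X * qAs + X ^ 2 * qA) _ (fun t => ?_) 2 ?_
      · simp only [eval_add, eval_mul, eval_pow, eval_X, eval_qA, eval_qAs]
      · rw [A_two, As_two]; norm_num
    · refine finite_zeros (X ^ 2 + X) _ (fun t => ?_) 2 ?_
      · simp only [eval_add, eval_pow, eval_X]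
      · norm_num
  · refine Set.Finite.biUnion (Finset.finite_toSet Bad) fun β _ => ?_
    refine (((?_ : Set.Finite _).union ?_).union ?_).union ?_ |>.union ?_
    · have h : ∀ t, (qP - C β * qPs).eval t = P t - β * Ps t := fun t => by
        simp only [eval_sub, eval_mul, eval_C, eval_qP, eval_qPs]
      by_cases hb : β = 1
      · exact finite_zeros _ _ h 2 (by rw [P_two, Ps_two, hb]; norm_num)
      · exact finite_zeros _ _ h 0 (by
          rw [P_zero, Ps_zero, mul_one]
          exact sub_ne_zero.2 (Ne.symm hb))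
    · have h : ∀ t, (X ^ 2 * qPs.comp (-X) + C β * qP.comp (-X)).eval t =
          t ^ 2 * Ps (-t) + β * P (-t) := fun t => by
        simp only [eval_add, eval_mul, eval_pow, eval_X, eval_C, eval_qPn, eval_qPsn]
      by_cases hb : β = 0
      · exact finite_zeros _ _ h 1 (by rw [P_neg_one, Ps_neg_one, hb]; norm_num)
      · exact finite_zeros _ _ h 0 (by
          rw [neg_zero, P_zero, Ps_zero]
          simpa using hb)
    · have h : ∀ t, (X * qAs + C β * qA).eval t = t * As t + β * A t := fun t => by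
        simp only [eval_add, eval_mul, eval_X, eval_C, eval_qA, eval_qAs]
      by_cases hb : β = 0
      · exact finite_zeros _ _ h 1 (by rw [A_one, As_one, hb]; norm_num)
      · exact finite_zeros _ _ h 0 (by
          rw [A_zero]
          simpa using hb)
    · refine (Set.finite_singleton (-β)).subset ?_
      intro t ht
      exact eq_neg_of_add_eq_zero_left ht
    · have h : ∀ t, (X ^ 2 - C β).eval t = t ^ 2 - β := fun t => by
        simp only [eval_sub, eval_pow, eval_X, eval_C]
      by_cases hb : β = 0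
      · exact finite_zeros _ _ h 1 (by rw [hb]; norm_num)
      · exact finite_zeros _ _ h 0 (by simpa using hb)

/-- `1` is a sum of five distinct norm-one elements avoiding a given finite set. -/
theorem five_one {m : ℕ} (hm : 0 < m) (Bad : Finset ℂ) :
    ∃ T : Finset ℂ, T.card = 5 ∧ (∀ t ∈ T, t ∈ K1 m) ∧ Disjoint T Bad ∧ ∑ t ∈ T, t = 1 := by
  obtain ⟨t, ht, hE⟩ := ((K1_infinite hm).sdiff (Exc_finite Bad)).nonempty
  simp only [Exc, Set.mem_union, Set.mem_ofPred_eq, Set.mem_iUnion, not_or, not_exists] at hE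
  obtain ⟨⟨⟨⟨⟨⟨⟨⟨⟨⟨⟨⟨⟨h1, h2⟩, h3⟩, d1⟩, d2⟩, d3⟩, d4⟩, d5⟩, d6⟩, d7⟩, d8⟩, d9⟩, d10⟩, hB⟩ := hE
  have hxy : fx t ≠ fy t := by
    intro h
    rw [fx, fy, div_eq_div_iff h1 h2] at h
    apply d1
    linear_combination h
  have hxz : fx t ≠ fz t := by
    intro h
    rw [fx, fz, div_eq_div_iff h1 h3] at h
    apply d2
    linear_combination h
  have hyz : fy t ≠ fz t := by
    intro h
    rw [fy, fz, div_eq_div_iff h2 h3] at h
    apply d3
    linear_combination -h
  have hx4 : fx t ≠ -t := by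
    intro h
    rw [fx, div_eq_iff h1] at h
    apply d4
    linear_combination h
  have hx5 : fx t ≠ t ^ 2 := by
    intro h
    rw [fx, div_eq_iff h1] at h
    apply d5
    linear_combination h
  have hy4 : fy t ≠ -t := by
    intro h
    rw [fy, div_eq_iff h2] at h
    apply d6
    linear_combination h
  have hy5 : fy t ≠ t ^ 2 := by
    intro h
    rw [fy, div_eq_iff h2] at h
    apply d7
    linear_combination -h
  have hz4 : fz t ≠ -t := by
    intro h
    rw [fz, div_eq_iff h3] at h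
    apply d8
    linear_combination h
  have hz5 : fz t ≠ t ^ 2 := by
    intro h
    rw [fz, div_eq_iff h3] at h
    apply d9
    linear_combination -h
  have h45 : -t ≠ t ^ 2 := by
    intro h
    apply d10
    linear_combination -h
  refine ⟨{fx t, fy t, fz t, -t, t ^ 2}, ?_, ?_, ?_, ?_⟩
  · rw [Finset.card_insert_of_notMem, Finset.card_insert_of_notMem, Finset.card_insert_of_notMem,
      Finset.card_insert_of_notMem, Finset.card_singleton]
    · simpa using h45
    · simp [hz4, hz5]
    · simp [hyz, hy4, hy5]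
    · simp [hxy, hxz, hx4, hx5]
  · intro s hs
    simp only [Finset.mem_insert, Finset.mem_singleton] at hs
    rcases hs with rfl | rfl | rfl | rfl | rfl
    · exact fx_mem ht h1
    · exact fy_mem ht h2
    · exact fz_mem ht h3
    · exact K1_neg ht
    · rw [pow_two]
      exact K1_mul ht ht
  · rw [Finset.disjoint_left]
    intro s hs hsB
    have hb := hB s hsB
    obtain ⟨⟨⟨⟨b1, b2⟩, b3⟩, b4⟩, b5⟩ := hb
    simp only [Finset.mem_insert, Finset.mem_singleton] at hs
    rcases hs with rfl | rfl | rfl | rfl | rfl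
    · apply b1
      rw [fx]
      field_simp
      ring
    · apply b2
      rw [fy]
      field_simp
      ring
    · apply b3
      rw [fz]
      field_simp
      ring
    · apply b4
      ring
    · apply b5
      ring
  · rw [Finset.sum_insert, Finset.sum_insert, Finset.sum_insert, Finset.sum_insert,
      Finset.sum_singleton]
    · rw [← sum_identity h1 h2 h3]
      ring
    · simpa using h45
    · simp [hz4, hz5]
    · simp [hyz, hy4, hy5]
    · simp [hxy, hxz, hx4, hx5]

/-- Every norm-one element is a sum of five distinct norm-one elements avoiding a given finite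
set. -/
theorem five {m : ℕ} (hm : 0 < m) {u : ℂ} (hu : u ∈ K1 m) (Bad : Finset ℂ) :
    ∃ T : Finset ℂ, T.card = 5 ∧ (∀ t ∈ T, t ∈ K1 m) ∧ Disjoint T Bad ∧ ∑ t ∈ T, t = u := by
  classical
  have h0 := K1_ne_zero hu
  obtain ⟨T, h1, h2, h3, h4⟩ := five_one hm (Bad.image (fun z => u⁻¹ * z))
  have hinj : Function.Injective (fun z : ℂ => u * z) := fun a b h => mul_left_cancel₀ h0 h
  refine ⟨T.image (fun z => u * z), ?_, ?_, ?_, ?_⟩
  · rw [Finset.card_image_of_injective _ hinj, h1]
  · intro t ht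
    obtain ⟨s, hs, rfl⟩ := Finset.mem_image.1 ht
    exact K1_mul hu (h2 s hs)
  · rw [Finset.disjoint_left] at h3 ⊢
    intro s hs hsB
    obtain ⟨z, hz, rfl⟩ := Finset.mem_image.1 hs
    refine h3 hz (Finset.mem_image.2 ⟨u * z, hsB, ?_⟩)
    rw [← mul_assoc, inv_mul_cancel₀ h0, one_mul]
  · rw [Finset.sum_image (fun a _ b _ h => hinj h), ← Finset.mul_sum, h4, mul_one]

/-- Separation: a multiset of norm-one elements can be replaced by a set with the same sum. -/
theorem separate {m : ℕ} (hm : 0 < m) (M : Multiset ℂ) (hM : ∀ t ∈ M, t ∈ K1 m) :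
    ∃ T : Finset ℂ, T.card = 5 * M.card ∧ (∀ t ∈ T, t ∈ K1 m) ∧ ∑ t ∈ T, t = M.sum := by
  classical
  induction M using Multiset.induction_on with
  | empty => exact ⟨∅, by simp, by simp, by simp⟩
  | cons u M ih =>
    obtain ⟨T, h1, h2, h3⟩ := ih fun t ht => hM t (Multiset.mem_cons_of_mem ht)
    obtain ⟨T', h1', h2', h3', h4'⟩ := five hm (hM u (Multiset.mem_cons_self u M)) T
    refine ⟨T' ∪ T, ?_, ?_, ?_⟩
    · rw [Finset.card_union_of_disjoint h3', h1, h1', Multiset.card_cons]
      ring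
    · intro t ht
      rcases Finset.mem_union.1 ht with ht | ht
      · exact h2' t ht
      · exact h2 t ht
    · rw [Finset.sum_union h3', h3, h4', Multiset.sum_cons]

/-- Adding `k` antipodal pairs. -/
theorem add_pairs {m : ℕ} (hm : 0 < m) (k : ℕ) (T : Finset ℂ) (hT : ∀ t ∈ T, t ∈ K1 m) :
    ∃ T' : Finset ℂ, T'.card = T.card + 2 * k ∧ (∀ t ∈ T', t ∈ K1 m) ∧
      ∑ t ∈ T', t = ∑ t ∈ T, t := by
  classical
  induction k with
  | zero => exact ⟨T, by simp, hT, rfl⟩
  | succ k ih =>
    obtain ⟨T', h1, h2, h3⟩ := ih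
    obtain ⟨w, hw, hw'⟩ := ((K1_infinite hm).sdiff
      (T'.finite_toSet.union (T'.image (fun z => -z)).finite_toSet)).nonempty
    simp only [Set.mem_union, Finset.mem_coe, Finset.mem_image, not_or, not_exists,
      not_and] at hw'
    have hn : -w ∉ T' := fun h => hw'.2 (-w) h (neg_neg w)
    have hne : w ≠ -w := by
      intro h
      apply K1_ne_zero hw
      have : (2 : ℂ) * w = 0 := by linear_combination h
      exact (mul_eq_zero.1 this).resolve_left two_ne_zero
    have hnot : w ∉ insert (-w) T' := by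
      simp only [Finset.mem_insert, not_or]
      exact ⟨hne, hw'.1⟩
    refine ⟨insert w (insert (-w) T'), ?_, ?_, ?_⟩
    · rw [Finset.card_insert_of_notMem hnot, Finset.card_insert_of_notMem hn, h1]
      ring
    · intro t ht
      simp only [Finset.mem_insert] at ht
      rcases ht with rfl | rfl | ht
      · exact hw
      · exact K1_neg hw
      · exact h2 t ht
    · rw [Finset.sum_insert hnot, Finset.sum_insert hn, h3]
      ring

/-- The trivial zero-sum relation of length `m`. -/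
theorem relation {m : ℕ} (hm : m % 4 = 3) :
    ∃ M : Multiset ℂ, M.card = m ∧ (∀ t ∈ M, t ∈ K1 m) ∧ M.sum = 0 := by
  obtain ⟨h, hh⟩ : ∃ h, m + 1 = 4 * h := ⟨(m + 1) / 4, by omega⟩
  have hm0 : 0 < m := by omega
  have hu : el m 1 ∈ K1 m := el_mem hm0 1
  refine ⟨Multiset.replicate h (el m 1) + Multiset.replicate h (el m 1)⁻¹ +
    Multiset.replicate (2 * h - 1) 1, ?_, ?_, ?_⟩
  · simp
    omega
  · intro t ht
    simp only [Multiset.mem_add] at ht
    rcases ht with (ht | ht) | ht
    · rw [Multiset.eq_of_mem_replicate ht]; exact hu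
    · rw [Multiset.eq_of_mem_replicate ht]; exact K1_inv hu
    · rw [Multiset.eq_of_mem_replicate ht]; exact K1_one
  · have h1 : 1 ≤ 2 * h := by omega
    simp only [Multiset.sum_add, Multiset.sum_replicate, nsmul_eq_mul, mul_one]
    rw [Nat.cast_sub h1]
    push_cast
    have e1 := el_aux hm0 1
    have e2 : (1 : ℂ) + om m ≠ 0 := by
      intro h0
      have := K1_ne_zero hu
      apply this
      rw [el]
      push_cast
      rw [h0, zero_div]
    push_cast at e1
    have hmc : (m : ℂ) + 1 = 4 * h := by exact_mod_cast hh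
    rw [el]
    push_cast
    rw [inv_div]
    field_simp
    have hsq := om_sq m
    have hm' : (m : ℂ) = 4 * h - 1 := by linear_combination hmc
    rw [hm'] at hsq
    linear_combination (4 * (h : ℂ) - (2 * (h : ℂ) - 1) - (2 * (h : ℂ))) * hsq

/-- For `m ≡ 3 (mod 4)` and `n ≥ 5 m` there are `n` distinct norm-one elements of `ℚ(√-m)` with
sum zero. -/
theorem exists_zero_sum {m : ℕ} (hm : m % 4 = 3) (n : ℕ) (hn : 5 * m ≤ n) :
    ∃ T : Finset ℂ, T.card = n ∧ (∀ t ∈ T, t ∈ K1 m) ∧ ∑ t ∈ T, t = 0 := by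
  have hm0 : 0 < m := by omega
  rcases Nat.even_or_odd' n with ⟨k, rfl | rfl⟩
  · obtain ⟨T, h1, h2, h3⟩ := add_pairs hm0 k ∅ (by simp)
    exact ⟨T, by simpa using h1, h2, by simpa using h3⟩
  · obtain ⟨M, h1, h2, h3⟩ := relation hm
    obtain ⟨T, h4, h5, h6⟩ := separate hm0 M h2
    obtain ⟨k', hk'⟩ : ∃ k', 2 * k + 1 = 5 * m + 2 * k' := ⟨(2 * k + 1 - 5 * m) / 2, by omega⟩
    obtain ⟨T', h7, h8, h9⟩ := add_pairs hm0 k' T h5
    refine ⟨T', ?_, h8, ?_⟩
    · rw [h7, h4, h1, hk']
    · rw [h9, h6, h3]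

end Pool.Agent.Lib.MP_349919_co
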